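import Pool.Agent.Lib.MP_147f4d_co.DenseMat

namespace Pool.Agent.Results.MP_147f4d_co.Dense

open Pool.Agent.Lib.MP_147f4d_co

/-- The inverse `Z`-polynomial of every matroid of rank `k` represented over a field with `q`
elements that has at least `min (C q ^ (k - 2), (1 - 1 / C) (q ^ k - 1) / (q - 1))` points or at
least `C q ^ (2 k - 6)` lines has degree `k`, positive coefficients (so no internal zeros) and is
log-concave. -/
theorem result : ∃ C : ℕ, ∀ (F : Type) [Field F] [Fintype F] (d : ℕ) (α : Type) [Finite α]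
    (M : Matroid α) (v : α → Fin d → F) (k : ℕ),
    (∀ I, M.Indep I ↔ I ⊆ M.E ∧ LinearIndepOn F v I) → M.eRank = k → 3 ≤ k →
    (min ((C : ℝ) * Fintype.card F ^ (k - 2))
        ((1 - 1 / C) * ((Fintype.card F ^ k - 1) / (Fintype.card F - 1))) ≤
        Nat.card {G : Flat M // flatRank M G = 1} ∨
      (C : ℝ) * Fintype.card F ^ (2 * k - 6) ≤ Nat.card {G : Flat M // flatRank M G = 2}) →
    (∃! Q, IsInvKL (flatRank M) Q) ∧ ∀ Q, IsInvKL (flatRank M) Q →
      (invZ (flatRank M) Q ⟨M.E, M.ground_isFlat⟩).natDegree = k ∧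
      (∀ i ≤ k, 0 < (invZ (flatRank M) Q ⟨M.E, M.ground_isFlat⟩).coeff i) ∧
      ∀ i, (invZ (flatRank M) Q ⟨M.E, M.ground_isFlat⟩).coeff i *
          (invZ (flatRank M) Q ⟨M.E, M.ground_isFlat⟩).coeff (i + 2) ≤
        (invZ (flatRank M) Q ⟨M.E, M.ground_isFlat⟩).coeff (i + 1) ^ 2 :=
  Dense.dense_main

end Pool.Agent.Results.MP_147f4d_co.Dense
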