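import Pool.Agent.Lib.MP_147f4d_co.Main

namespace Pool.Agent.Results.MP_147f4d_co.Dowling

open Pool.Agent.Lib.MP_147f4d_co

/-- The inverse `Z`-polynomial of every Dowling geometry `Q_n(G)` has degree `n`, positive
coefficients (so no internal zeros) and is log-concave. -/
theorem result (n : ℕ) (G : Type) [Group G] [Fintype G] :
    (∃ M : Matroid (Ground n G), IsDowling M) ∧
    ∀ M : Matroid (Ground n G), IsDowling M →
      (∃! Q, IsInvKL (flatRank M) Q) ∧ ∀ Q, IsInvKL (flatRank M) Q →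
        (invZ (flatRank M) Q ⟨M.E, M.ground_isFlat⟩).natDegree = n ∧
        (∀ i ≤ n, 0 < (invZ (flatRank M) Q ⟨M.E, M.ground_isFlat⟩).coeff i) ∧
        ∀ i, (invZ (flatRank M) Q ⟨M.E, M.ground_isFlat⟩).coeff i *
            (invZ (flatRank M) Q ⟨M.E, M.ground_isFlat⟩).coeff (i + 2) ≤
          (invZ (flatRank M) Q ⟨M.E, M.ground_isFlat⟩).coeff (i + 1) ^ 2 :=
  ⟨exists_dowling, fun _ h => h.main⟩

end Pool.Agent.Results.MP_147f4d_co.Dowling
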