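import Pool.Agent.Lib.MP_147f4d_co.NestMat

namespace Pool.Agent.Results.MP_147f4d_co.Nested

open Pool.Agent.Lib.MP_147f4d_co Pool.Agent.Lib.MP_147f4d_co.Split

/-- The inverse `Z`-polynomial of every nested (Schubert) matroid of rank `k` has degree `k`,
positive coefficients (so no internal zeros) and is log-concave. -/
theorem result {α : Type} [Finite α] (M : Matroid α) (h : IsNested M) (k : ℕ)
    (hk : M.eRank = k) :
    (∃! Q, IsInvKL (flatRank M) Q) ∧ ∀ Q, IsInvKL (flatRank M) Q →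
      (invZ (flatRank M) Q ⟨M.E, M.ground_isFlat⟩).natDegree = k ∧
      (∀ i ≤ k, 0 < (invZ (flatRank M) Q ⟨M.E, M.ground_isFlat⟩).coeff i) ∧
      ∀ i, (invZ (flatRank M) Q ⟨M.E, M.ground_isFlat⟩).coeff i *
          (invZ (flatRank M) Q ⟨M.E, M.ground_isFlat⟩).coeff (i + 2) ≤
        (invZ (flatRank M) Q ⟨M.E, M.ground_isFlat⟩).coeff (i + 1) ^ 2 :=
  h.main hk

end Pool.Agent.Results.MP_147f4d_co.Nested
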