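import Pool.Agent.Lib.MP_147f4d_co.SplitMain

namespace Pool.Agent.Results.MP_147f4d_co.Split

open Pool.Agent.Lib.MP_147f4d_co Pool.Agent.Lib.MP_147f4d_co.Split

/-- The inverse `Z`-polynomial of every finite direct sum of elementary split matroids (so of every
split matroid and every paving matroid) of rank `k` has degree `k`, positive coefficients (so no
internal zeros) and is log-concave. -/
theorem result {α : Type} [Finite α] (M : Matroid α) (h : IsSplitSum M) (k : ℕ)
    (hk : M.eRank = k) :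
    (∃! Q, IsInvKL (flatRank M) Q) ∧ ∀ Q, IsInvKL (flatRank M) Q →
      (invZ (flatRank M) Q ⟨M.E, M.ground_isFlat⟩).natDegree = k ∧
      (∀ i ≤ k, 0 < (invZ (flatRank M) Q ⟨M.E, M.ground_isFlat⟩).coeff i) ∧
      ∀ i, (invZ (flatRank M) Q ⟨M.E, M.ground_isFlat⟩).coeff i *
          (invZ (flatRank M) Q ⟨M.E, M.ground_isFlat⟩).coeff (i + 2) ≤
        (invZ (flatRank M) Q ⟨M.E, M.ground_isFlat⟩).coeff (i + 1) ^ 2 :=
  h.main hk

end Pool.Agent.Results.MP_147f4d_co.Split
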